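import Mathlib
import Pool.Agent.Helper70.KN.Goals3

/-!
# Project KN (MP_20ee5e_ag), part 3, packet NA
-/

set_option autoImplicit false

namespace Pool.Agent.Helper46.KN.NA

open Pool.Agent.Helper70.KN

theorem pow_lt (N : ℕ) (hN : 4 ≤ N) : (3 / 4 : ℝ) ^ N * ((N : ℝ) - 1) < 1 := by
  induction N, hN using Nat.le_induction with
  | base => norm_num
  | succ n hn ih =>
    have h4 : (4 : ℝ) ≤ n := by exact_mod_cast hn
    have hp : (0 : ℝ) < (3 / 4 : ℝ) ^ n := by positivity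
    rw [pow_succ]
    push_cast
    nlinarith

theorem t : S_NA := by
  intro N θ hN hθ hθ1
  have h4 : (4 : ℝ) ≤ N := by exact_mod_cast hN
  have hN0 : (0 : ℝ) < N := by linarith
  have hN1 : (0 : ℝ) < (N : ℝ) - 1 := by linarith
  have hN2 : (0 : ℝ) < (N : ℝ) - 2 := by linarith
  have hθ0 : θ * N ≤ N - 2 := by
    have h := mul_le_mul_of_nonneg_right hθ1 hN0.le
    have e : (1 - 2 / (N : ℝ)) * N = N - 2 := by field_simp
    rwa [e] at h
  set s : ℝ := θ * N / (N - 2) with hs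
  have hs0 : 0 < s := by positivity
  have hs1 : s ≤ 1 := by
    rw [hs, div_le_one hN2]
    exact hθ0
  have hx : (1 : ℝ) ∈ Set.Ici (0 : ℝ) := by simp
  have hy : ((N : ℝ) + 2) / (2 * N) ∈ Set.Ici (0 : ℝ) := by rw [Set.mem_Ici]; positivity
  have hs2 : 0 ≤ 1 - s := by linarith
  have hs3 : (1 - s) + s = 1 := by ring
  have hc := (convexOn_pow (𝕜 := ℝ) N).2 hx hy hs2 hs0.le hs3
  have e1 : (1 - s) • (1 : ℝ) + s • (((N : ℝ) + 2) / (2 * N)) = 1 - θ * (1 / 2) := by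
    rw [smul_eq_mul, smul_eq_mul, hs]
    field_simp
    ring
  rw [e1] at hc
  simp only [one_pow, smul_eq_mul, mul_one] at hc
  have hq : (((N : ℝ) + 2) / (2 * N)) ^ N ≤ (3 / 4 : ℝ) ^ N := by
    apply pow_le_pow_left₀ (by positivity)
    rw [div_le_div_iff₀ (by positivity) (by norm_num)]
    linarith
  have hp := pow_lt N hN
  have hq2 : (((N : ℝ) + 2) / (2 * N)) ^ N * (N - 1) < 1 :=
    lt_of_le_of_lt (mul_le_mul_of_nonneg_right hq hN1.le) hp
  unfold kap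
  rw [div_mul_div_comm, lt_div_iff₀ (by positivity), one_mul]
  -- `N * θ < (N - 1) * (1 - (1 - θ/2)^N)`
  have h5 : s * (1 - (((N : ℝ) + 2) / (2 * N)) ^ N) ≤ 1 - (1 - θ * (1 / 2)) ^ N := by
    linarith
  have h6 : (N : ℝ) * θ = s * (N - 2) := by
    rw [hs]
    field_simp
  have h7 : s * (N - 2) < (N - 1) * (s * (1 - (((N : ℝ) + 2) / (2 * N)) ^ N)) := by
    have : (N : ℝ) - 2 < (N - 1) * (1 - (((N : ℝ) + 2) / (2 * N)) ^ N) := by linarith
    nlinarith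
  calc (N : ℝ) * θ = s * (N - 2) := h6
    _ < (N - 1) * (s * (1 - (((N : ℝ) + 2) / (2 * N)) ^ N)) := h7
    _ ≤ (N - 1) * (1 - (1 - θ * (1 / 2)) ^ N) := mul_le_mul_of_nonneg_left h5 hN1.le

end Pool.Agent.Helper46.KN.NA
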